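import Pool.Agent.MP_3ee8cb_gt.SL.Defs
import Pool.Agent.MP_3ee8cb_gt.TB.RGAM

/-! From the statement layer to the working definitions. -/

namespace Pool.Agent.MP_3ee8cb_gt.SL

variable {n : ℕ}

/-- The plain function underlying a field of bilinear forms. -/
noncomputable abbrev pl (g : CR.Met n) : Met n := fun x u v => g x u v

theorem link_bil {F : Type} [NormedAddCommGroup F] [NormedSpace ℝ F] (b : E n → E n → E n → F)
    (h1 : ∀ x u, IsLinearMap ℝ (b x u)) (h2 : ∀ x v, IsLinearMap ℝ fun u => b x u v) :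
    ∃ b' : E n → E n →L[ℝ] E n →L[ℝ] F, b = fun x u v => b' x u v := by
  refine ⟨fun x => LinearMap.toContinuousLinearMap
    { toFun := fun u => LinearMap.toContinuousLinearMap ((h1 x u).mk' _)
      map_add' := fun u u' => ?_
      map_smul' := fun c u => ?_ }, rfl⟩
  · ext1 v
    exact (h2 x v).map_add u u'
  · ext1 v
    exact (h2 x v).map_smul c u

theorem link_riem {g : Met n} (hg : Riem g) : ∃ g' : CR.Met n, g = pl g' ∧ CR.Riem g' := by
  obtain ⟨g', rfl⟩ := link_bil g hg.linear fun x v => by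
    have : (fun u => g x u v) = g x v := funext fun u => hg.symm x u v
    rw [this]
    exact hg.linear x v
  refine ⟨g', rfl, ?_, hg.symm, hg.pos⟩
  rw [contDiff_clm_apply_iff]
  intro u
  rw [contDiff_clm_apply_iff]
  exact hg.smooth u

theorem link_dR {g : CR.Met n} (hg : CR.Riem g) (x w u v : E n) :
    dR (fun y => pl g y u v) x w = fderiv ℝ g x w u v :=
  TB.gam_fderiv_apply (hg.smooth.differentiable (by norm_num)).differentiableAt w u v

theorem link_flow {g : CR.Met n} (hg : CR.Riem g) {Φ : ℝ → UT (pl g) → UT (pl g)}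
    (h : IsFlow (pl g) Φ) : CR.IsFlow g Φ :=
  ⟨h.zero, h.vel, fun p t w => by
    have := h.geo p t w
    rwa [link_dR hg] at this⟩

theorem link_deck {g : CR.Met n} {Γ : Type} [Group Γ] [MulAction Γ (E n)] (h : Deck (pl g) Γ) :
    CR.Deck g Γ := ⟨h.smooth, h.iso, h.free, h.disc, h.cpt⟩

end Pool.Agent.MP_3ee8cb_gt.SL
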