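import Pool.Agent.MP_3ee8cb_gt.SL.Liou
import Pool.Agent.MP_3ee8cb_gt.SL.Link

/-! The curvature bound in the working definitions. -/

namespace Pool.Agent.MP_3ee8cb_gt.SL

variable {n : ℕ}

theorem link_curv {h : CR.Met n} (hh : CR.Riem h) {a : ℝ} (H : CurvLe (pl h) a) :
    TB.CurvLe h a := by
  obtain ⟨C, c, k⟩ := H
  have c' : ∀ x u v w, 2 * h x (C x u v) w =
      fderiv ℝ h x u v w + fderiv ℝ h x v u w - fderiv ℝ h x w u v := by
    intro x u v w
    have := c x u v w
    rwa [link_dR hh, link_dR hh, link_dR hh] at this
  obtain ⟨C', rfl⟩ := link_bil C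
    (fun x u => ⟨fun v v' => TB.gam_inj hh x (by
        ext1 w
        have e1 := c' x u (v + v') w
        have e2 := c' x u v w
        have e3 := c' x u v' w
        simp only [map_add, ContinuousLinearMap.add_apply] at e1 ⊢
        linarith),
      fun s v => TB.gam_inj hh x (by
        ext1 w
        have e1 := c' x u (s • v) w
        have e2 := c' x u v w
        simp only [map_smul, ContinuousLinearMap.smul_apply, smul_eq_mul] at e1 ⊢
        linear_combination (1 / 2 : ℝ) * e1 - (s / 2) * e2)⟩)
    (fun x v => ⟨fun u u' => TB.gam_inj hh x (by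
        ext1 w
        have e1 := c' x (u + u') v w
        have e2 := c' x u v w
        have e3 := c' x u' v w
        simp only [map_add, ContinuousLinearMap.add_apply] at e1 ⊢
        linarith),
      fun s u => TB.gam_inj hh x (by
        ext1 w
        have e1 := c' x (s • u) v w
        have e2 := c' x u v w
        simp only [map_smul, ContinuousLinearMap.smul_apply, smul_eq_mul] at e1 ⊢
        linear_combination (1 / 2 : ℝ) * e1 - (s / 2) * e2)⟩)
  have G := TB.gam n h C' hh c'
  refine ⟨C', c', fun x u v => ?_⟩
  have d : DifferentiableAt ℝ C' x := (G.smooth.differentiable (by norm_num)).differentiableAt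
  have := k x u v
  unfold Rm dE at this
  rw [TB.gam_fderiv_apply d, TB.gam_fderiv_apply d] at this
  exact this

end Pool.Agent.MP_3ee8cb_gt.SL
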