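import Pool.Agent.MP_3ee8cb_gt.SL.Defs

namespace Pool.Agent.MP_3ee8cb_gt.SL

open MeasureTheory

variable {n : ℕ}

/-- `C x u v` are the Christoffel symbols (Levi-Civita connection) of `h`. -/
def IsChr (h : Met n) (C : E n → E n → E n → E n) : Prop := ∀ x u v w, 2 * h x (C x u v) w =
  dR (fun y => h y v w) x u + dR (fun y => h y u w) x v - dR (fun y => h y u v) x w

/-- The curvature tensor `R(u, v) w` at `x`. -/
noncomputable def Rm (C : E n → E n → E n → E n) (x u v w : E n) : E n :=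
  dE (fun y => C y v w) x u - dE (fun y => C y u w) x v + C x u (C x v w) - C x v (C x u w)

/-- All sectional curvatures of `h` are at most `-a ^ 2`. -/
def CurvLe (h : Met n) (a : ℝ) : Prop := ∃ C, IsChr h C ∧ ∀ x u v,
  h x (Rm C x u v v) u ≤ -a ^ 2 * (h x u u * h x v v - h x u v ^ 2)

/-- A Borel set that meets every orbit exactly once. -/
def Fund (Γ : Type) [Group Γ] [MulAction Γ (E n)] (D : Set (E n)) : Prop :=
  MeasurableSet D ∧ ∀ x : E n, ∃! γ : Γ, γ • x ∈ D

/-- The covectors `r g(v, ·)` with `v ∈ B` and `0 < r ≤ 1`. -/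
def cone (g : Met n) (B : Set (UT g)) : Set (E n × E n) :=
  {z | ∃ p ∈ B, ∃ r : ℝ, 0 < r ∧ r ≤ 1 ∧ z.1 = p.1.1 ∧
    ∀ w, inner ℝ z.2 w = r * g p.1.1 p.1.2 w}

/-- Liouville measure on the quotient: symplectic volume of the cone over the lift to `D`. -/
noncomputable def liou (g : Met n) (Γ : Type) [Group Γ] [MulAction Γ (E n)] (D : Set (E n))
    (B : Set (UM g Γ)) : ENNReal :=
  volume (cone g {p | p.1.1 ∈ D ∧ Quot.mk _ p ∈ B})

/-- Riemannian volume. -/
noncomputable def vol (g : Met n) (D : Set (E n)) : ENNReal :=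
  ∫⁻ x in D, ENNReal.ofReal √(Matrix.of fun i j : Fin n =>
    g x (EuclideanSpace.single i 1) (EuclideanSpace.single j 1)).det

end Pool.Agent.MP_3ee8cb_gt.SL
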